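import Mathlib

/-!
# The number of classes and the collision probability
-/

set_option autoImplicit false

namespace Pool.Agent.Q118.UF

open Finset

/-- The collision probability from the mean square deviation. -/
theorem collision {ι : Type*} [Fintype ι] [Nonempty ι] (c : ι → ℕ) (hpos : 0 < ∑ i, c i) {ε : ℝ}
    (h : (∑ i, ((c i : ℝ) / ((∑ j, c j : ℕ) : ℝ) - 1 / Nat.card ι) ^ 2) / Nat.card ι ≤
      ε * (1 / Nat.card ι) ^ 2) :
    1 ≤ (Nat.card ι : ℝ) * ((∑ i, (c i : ℝ) ^ 2) / ((∑ j, c j : ℕ) : ℝ) ^ 2) ∧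
      (Nat.card ι : ℝ) * ((∑ i, (c i : ℝ) ^ 2) / ((∑ j, c j : ℕ) : ℝ) ^ 2) ≤ 1 + ε := by
  have hN : (0 : ℝ) < ((∑ j, c j : ℕ) : ℝ) := by exact_mod_cast hpos
  have hh : (0 : ℝ) < (Nat.card ι : ℝ) := by
    exact_mod_cast Nat.card_pos
  set N : ℝ := ((∑ j, c j : ℕ) : ℝ) with hNdef
  set n : ℝ := (Nat.card ι : ℝ) with hndef
  have hsum : ∑ i, (c i : ℝ) = N := by rw [hNdef]; push_cast; rfl
  have hexp : ∑ i, ((c i : ℝ) / N - 1 / n) ^ 2 = (∑ i, (c i : ℝ) ^ 2) / N ^ 2 - 1 / n := by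
    have h1 : ∀ i, ((c i : ℝ) / N - 1 / n) ^ 2 =
        (c i : ℝ) ^ 2 / N ^ 2 - 2 / n / N * (c i : ℝ) + 1 / n ^ 2 := by
      intro i
      field_simp
      ring
    rw [Finset.sum_congr rfl fun i _ => h1 i, Finset.sum_add_distrib, Finset.sum_sub_distrib,
      ← Finset.sum_div, ← Finset.mul_sum, hsum, Finset.sum_const, Finset.card_univ,
      ← Nat.card_eq_fintype_card, nsmul_eq_mul, ← hndef]
    field_simp
    ring
  rw [hexp] at h
  have h0 : 0 ≤ (∑ i, (c i : ℝ) ^ 2) / N ^ 2 - 1 / n := by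
    rw [← hexp]
    exact Finset.sum_nonneg fun i _ => sq_nonneg _
  set κ : ℝ := (∑ i, (c i : ℝ) ^ 2) / N ^ 2 with hκ
  constructor
  · have : 1 / n ≤ κ := by linarith
    rw [div_le_iff₀ hh] at this
    linarith
  · rw [div_le_iff₀ hh] at h
    have h2 : ε * (1 / n) ^ 2 * n = ε / n := by field_simp
    rw [h2] at h
    have h3 : κ ≤ (1 + ε) / n := by
      rw [add_div]
      linarith
    rw [le_div_iff₀ hh] at h3
    linarith

/-- Reading off a small number of classes. -/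
theorem read_off {h H : ℕ} {κ ε : ℝ} (hε : ε * (H + 1) ≤ 1) (hε0 : 0 < ε) (hh : 0 < h)
    (h1 : 1 ≤ (h : ℝ) * κ) (h2 : (h : ℝ) * κ ≤ 1 + ε) :
    min h (H + 1) = min ⌈1 / κ⌉₊ (H + 1) := by
  have hh' : (0 : ℝ) < h := by exact_mod_cast hh
  have hκ : 0 < κ := by
    by_contra hcon
    push Not at hcon
    nlinarith
  have hle : 1 / κ ≤ h := by
    rw [div_le_iff₀ hκ]
    exact h1
  have hc1 : ⌈1 / κ⌉₊ ≤ h := Nat.ceil_le.2 hle
  have hge : (h : ℝ) ≤ (1 + ε) * (1 / κ) := by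
    rw [mul_one_div, le_div_iff₀ hκ]
    exact h2
  rcases Nat.lt_or_ge H h with hH | hH
  · -- many classes
    have h3 : H + 1 ≤ ⌈1 / κ⌉₊ := by
      rw [Nat.add_one_le_ceil_iff]
      have h4 : ((H : ℝ) + 1) ≤ h := by exact_mod_cast hH
      have hH0 : (0 : ℝ) ≤ H := Nat.cast_nonneg H
      by_contra hcon
      push Not at hcon
      have h5 : (h : ℝ) ≤ (1 + ε) * H := hge.trans (mul_le_mul_of_nonneg_left hcon (by linarith))
      nlinarith
    rw [min_eq_right h3, min_eq_right (by omega)]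
  · have h3 : h ≤ ⌈1 / κ⌉₊ := by
      obtain ⟨m, rfl⟩ : ∃ m, h = m + 1 := ⟨h - 1, by omega⟩
      rw [Nat.add_one_le_ceil_iff]
      by_contra hcon
      push Not at hcon
      have hm : ((m : ℝ) + 1) ≤ H := by exact_mod_cast hH
      have hm0 : (0 : ℝ) ≤ m := Nat.cast_nonneg m
      push_cast at hge
      have h5 : (m : ℝ) + 1 ≤ (1 + ε) * m := hge.trans (mul_le_mul_of_nonneg_left hcon (by linarith))
      nlinarith
    rw [le_antisymm h3 hc1]

end Pool.Agent.Q118.UF
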