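import Mathlib

/-!
# Almost all members of an infinite set of natural numbers are large
-/

set_option autoImplicit false

namespace Pool.Agent.Q118.UF

open Filter Finset
open scoped Classical

theorem card_tendsto (F : ℕ → Prop) (hF : {d | F d}.Infinite) :
    Tendsto (fun X : ℕ => (((Finset.Icc 1 X).filter F).card : ℝ)) atTop atTop := by
  apply tendsto_natCast_atTop_atTop.comp
  rw [tendsto_atTop]
  intro M
  have hF' : {d | F d ∧ 1 ≤ d}.Infinite := by
    have h1 : {d | F d} \ {0} ⊆ {d | F d ∧ 1 ≤ d} := by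
      rintro d ⟨h, h0⟩
      exact ⟨h, Nat.one_le_iff_ne_zero.2 (by simpa using h0)⟩
    exact (hF.diff (Set.finite_singleton 0)).mono h1
  obtain ⟨t, ht, hc⟩ := hF'.exists_subset_card_eq M
  filter_upwards [eventually_ge_atTop (t.sup id)] with X hX
  rw [← hc]
  apply Finset.card_le_card
  intro d hd
  rw [Finset.mem_filter, Finset.mem_Icc]
  have h1 := ht (Finset.mem_coe.2 hd)
  exact ⟨⟨h1.2, (Finset.le_sup (f := id) hd).trans hX⟩, h1.1⟩

theorem almost_of_large (F G G' : ℕ → Prop) (hF : {d | F d}.Infinite) (d₀ : ℕ)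
    (h : ∀ d, d₀ ≤ d → F d → G d → G' d)
    (hG : Tendsto (fun X : ℕ => (((Finset.Icc 1 X).filter (fun d => F d ∧ ¬ G d)).card : ℝ) /
      (((Finset.Icc 1 X).filter F).card : ℝ)) atTop (nhds 0)) :
    Tendsto (fun X : ℕ => (((Finset.Icc 1 X).filter (fun d => F d ∧ ¬ G' d)).card : ℝ) /
      (((Finset.Icc 1 X).filter F).card : ℝ)) atTop (nhds 0) := by
  have h1 : Tendsto (fun X : ℕ => (d₀ : ℝ) / (((Finset.Icc 1 X).filter F).card : ℝ)) atTop
      (nhds 0) := (card_tendsto F hF).const_div_atTop _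
  have h2 := hG.add h1
  rw [add_zero] at h2
  refine squeeze_zero (fun X => by positivity) (fun X => ?_) h2
  rw [← add_div]
  apply div_le_div_of_nonneg_right _ (Nat.cast_nonneg _)
  have h3 : ((Finset.Icc 1 X).filter (fun d => F d ∧ ¬ G' d)) ⊆
      ((Finset.Icc 1 X).filter (fun d => F d ∧ ¬ G d)) ∪ Finset.range d₀ := by
    intro d hd
    rw [Finset.mem_filter] at hd
    rw [Finset.mem_union, Finset.mem_filter, Finset.mem_range]
    by_cases hd0 : d < d₀
    · exact Or.inr hd0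
    · left
      exact ⟨hd.1, hd.2.1, fun hg => hd.2.2 (h d (not_lt.1 hd0) hd.2.1 hg)⟩
  have h4 := (Finset.card_le_card h3).trans (Finset.card_union_le _ _)
  rw [Finset.card_range] at h4
  exact_mod_cast h4

theorem log_small (a : ℝ) : ∃ d₀ : ℕ, ∀ d : ℕ, d₀ ≤ d →
    8 * (Real.log d) ^ a ≤ √(d : ℝ) := by
  have h := isLittleO_log_rpow_rpow_atTop a (show (0 : ℝ) < 1 / 2 by norm_num)
  have h1 := h.def (show (0 : ℝ) < 1 / 8 by norm_num)
  have h2 := tendsto_natCast_atTop_atTop (R := ℝ) |>.eventually h1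
  have h3 := h2.and (eventually_ge_atTop 1)
  obtain ⟨d₀, hd₀⟩ := eventually_atTop.1 h3
  refine ⟨d₀, fun d hd => ?_⟩
  obtain ⟨h4, h5⟩ := hd₀ d hd
  have hd1 : (1 : ℝ) ≤ d := by exact_mod_cast h5
  have hl : 0 ≤ Real.log d := Real.log_nonneg hd1
  rw [Real.norm_of_nonneg (Real.rpow_nonneg hl a), Real.norm_of_nonneg (by positivity),
    ← Real.sqrt_eq_rpow] at h4
  linarith

theorem inf_primes : {d : ℕ | d.Prime}.Infinite := Nat.infinite_setOf_prime

theorem inf_three : {p : ℕ | p.Prime ∧ p % 4 = 3}.Infinite := by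
  rw [Set.infinite_iff_exists_gt]
  intro n
  have hu : IsUnit (3 : ZMod 4) := by decide
  obtain ⟨p, hp1, hp2, hp3⟩ := Nat.forall_exists_prime_gt_and_eq_mod hu n
  refine ⟨p, ⟨hp2, ?_⟩, hp1⟩
  have h3 : ((p : ℕ) : ZMod 4) = ((3 : ℕ) : ZMod 4) := by rw [hp3]; rfl
  rw [ZMod.natCast_eq_natCast_iff] at h3
  exact h3

end Pool.Agent.Q118.UF
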