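import Mathlib

/-!
# Small values of `x² - d y²` and convergents of `√d`
-/

set_option autoImplicit false

namespace Pool.Agent.Q118.UF

/-- `q` or `4 q` is the absolute value of `x² - d y²` for some integers `x`, `y`. -/
def Rep (d q : ℕ) : Prop :=
  ∃ x y : ℤ, |x ^ 2 - d * y ^ 2| = (q : ℤ) ∨ |x ^ 2 - d * y ^ 2| = 4 * (q : ℤ)

/-- `q` or `4 q` is the absolute value of `x² - d y²` for a convergent `x / y` of `√d`. -/
def AtConv (d q : ℕ) : Prop :=
  ∃ n : ℕ, |((√(d : ℝ)).convergent n).num ^ 2 - (d : ℤ) * ((√(d : ℝ)).convergent n).den ^ 2| =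
      (q : ℤ) ∨
    |((√(d : ℝ)).convergent n).num ^ 2 - (d : ℤ) * ((√(d : ℝ)).convergent n).den ^ 2| =
      4 * (q : ℤ)

theorem rep_of_atConv {d q : ℕ} (h : AtConv d q) : Rep d q := by
  obtain ⟨n, h⟩ := h
  exact ⟨_, _, h⟩

theorem dvd_two_of_sq {q g : ℕ} (hq : q.Prime) (h : g ^ 2 ∣ 4 * q) : g ∣ 2 := by
  by_cases hqg : q ∣ g
  · have h1 : q ^ 2 ∣ 4 * q := (pow_dvd_pow_of_dvd hqg 2).trans h
    have h2 : q ∣ 4 := by
      rw [pow_two, mul_comm 4 q] at h1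
      exact Nat.dvd_of_mul_dvd_mul_left hq.pos h1
    have h3 : q = 2 := by
      have : q ∣ 2 ^ 2 := by simpa using h2
      exact (Nat.prime_dvd_prime_iff_eq hq Nat.prime_two).1 (hq.dvd_of_dvd_pow this)
    subst h3
    have h4 : g ^ 2 ≤ 8 := Nat.le_of_dvd (by norm_num) (by simpa using h)
    have h5 : g ≤ 2 := by nlinarith
    interval_cases g
    · simp at h
    · simp
    · simp
  · have h1 : Nat.Coprime (g ^ 2) q :=
      (Nat.Coprime.pow_left 2 ((Nat.Prime.coprime_iff_not_dvd hq).2 hqg).symm)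
    have h2 : g ^ 2 ∣ 2 ^ 2 := by
      have := h1.dvd_of_dvd_mul_right h
      simpa using this
    exact (Nat.pow_dvd_pow_iff (by norm_num)).1 h2

/-- Coprime solutions. -/
theorem coprime_rep {d q : ℕ} (hq : q.Prime) (h : Rep d q) :
    ∃ x y : ℕ, Nat.Coprime x y ∧
      (|(x : ℤ) ^ 2 - d * (y : ℤ) ^ 2| = (q : ℤ) ∨ |(x : ℤ) ^ 2 - d * (y : ℤ) ^ 2| = 4 * (q : ℤ)) := by
  obtain ⟨x, y, h⟩ := h
  have hqpos : (0 : ℤ) < q := by exact_mod_cast hq.pos
  have hg : 0 < Int.gcd x y := by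
    rw [Nat.pos_iff_ne_zero]
    intro h0
    rw [Int.gcd_eq_zero_iff] at h0
    rw [h0.1, h0.2] at h
    rcases h with h | h <;> simp at h <;> omega
  obtain ⟨x', y', hc, hx, hy⟩ := Int.exists_gcd_one hg
  obtain ⟨g, hgdef⟩ : ∃ g, g = Int.gcd x y := ⟨_, rfl⟩
  rw [← hgdef] at hx hy hg
  have key : |x ^ 2 - d * y ^ 2| = (g : ℤ) ^ 2 * |x' ^ 2 - d * y' ^ 2| := by
    rw [hx, hy, show (x' * (g : ℤ)) ^ 2 - d * (y' * (g : ℤ)) ^ 2 =
      (g : ℤ) ^ 2 * (x' ^ 2 - d * y' ^ 2) by ring, abs_mul, abs_of_nonneg (sq_nonneg (g : ℤ))]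
  have hfin : |x' ^ 2 - d * y' ^ 2| = (q : ℤ) ∨ |x' ^ 2 - d * y' ^ 2| = 4 * (q : ℤ) := by
    have hdvd : ((g ^ 2 : ℕ) : ℤ) ∣ ((4 * q : ℕ) : ℤ) := by
      push_cast
      rcases h with h | h
      · rw [key] at h
        exact Dvd.dvd.mul_left (Dvd.intro _ h) 4
      · rw [key] at h
        exact Dvd.intro _ h
    have hg2 : g ∣ 2 := dvd_two_of_sq hq (by exact_mod_cast hdvd)
    rcases (Nat.dvd_prime Nat.prime_two).1 hg2 with h1 | h1
    · rw [h1] at key
      simp only [Nat.cast_one, one_pow, one_mul] at key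
      rwa [key] at h
    · rw [h1] at key
      have hodd : ¬ (4 : ℤ) ∣ (q : ℤ) := by
        intro h4
        have h4' : 4 ∣ q := by exact_mod_cast h4
        have h2q : 2 ∣ q := (by norm_num : (2 : ℕ) ∣ 4).trans h4'
        have hq2 : q = 2 := ((Nat.prime_dvd_prime_iff_eq Nat.prime_two hq).1 h2q).symm
        rw [hq2] at h4'
        norm_num at h4'
      rcases h with h | h
      · exfalso
        apply hodd
        rw [← h, key]
        norm_num
      · left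
        rw [key] at h
        push_cast at h
        linarith
  refine ⟨x'.natAbs, y'.natAbs, ?_, ?_⟩
  · exact hc
  · rw [Int.natAbs_sq x', Int.natAbs_sq y']
    exact hfin

/-- Small values are attained at convergents. -/
theorem atConv_of_rep {d q : ℕ} (hq : q.Prime) (h8 : 8 * (q : ℝ) ≤ √(d : ℝ)) (h : Rep d q) :
    AtConv d q := by
  obtain ⟨x, y, hc, h⟩ := coprime_rep hq h
  have hq2 : (2 : ℝ) ≤ q := by exact_mod_cast hq.two_le
  have hd0 : (0 : ℝ) ≤ (d : ℝ) := Nat.cast_nonneg d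
  have hs : √(d : ℝ) * √(d : ℝ) = d := Real.mul_self_sqrt hd0
  have hs0 : 0 < √(d : ℝ) := by linarith
  -- the value
  obtain ⟨m, hm, hm4⟩ : ∃ m : ℝ, |(x : ℝ) ^ 2 - d * (y : ℝ) ^ 2| = m ∧ m ≤ 4 * q := by
    rcases h with h | h
    · refine ⟨q, by exact_mod_cast h, by linarith⟩
    · refine ⟨4 * q, by exact_mod_cast h, le_rfl⟩
  have hy : 0 < y := by
    rw [Nat.pos_iff_ne_zero]
    rintro rfl
    rw [Nat.coprime_zero_right] at hc
    subst hc
    have := hq.two_le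
    rcases h with h | h <;> norm_num at h <;> omega
  have hx : 0 < x := by
    rw [Nat.pos_iff_ne_zero]
    rintro rfl
    rw [Nat.coprime_zero_left] at hc
    subst hc
    rw [show ((0 : ℕ) : ℝ) ^ 2 - d * ((1 : ℕ) : ℝ) ^ 2 = -(d : ℝ) by push_cast; ring, abs_neg,
      abs_of_nonneg hd0] at hm
    have h1 : (d : ℝ) ≤ 4 * q := by rw [hm]; exact hm4
    nlinarith
  have hy' : (0 : ℝ) < y := by exact_mod_cast hy
  have hx' : (0 : ℝ) < x := by exact_mod_cast hx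
  have hcop : (x : ℤ).natAbs.Coprime (y : ℤ).natAbs := by simpa using hc
  have hnum : ((x : ℚ) / (y : ℚ)).num = (x : ℤ) := by
    have := Rat.num_div_eq_of_coprime (a := (x : ℤ)) (b := (y : ℤ)) (by exact_mod_cast hy) hcop
    rwa [Int.cast_natCast, Int.cast_natCast] at this
  have hden : (((x : ℚ) / (y : ℚ)).den : ℤ) = (y : ℤ) := by
    have := Rat.den_div_eq_of_coprime (a := (x : ℤ)) (b := (y : ℤ)) (by exact_mod_cast hy) hcop
    rwa [Int.cast_natCast, Int.cast_natCast] at this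
  have hden' : ((x : ℚ) / (y : ℚ)).den = y := by exact_mod_cast hden
  have hlt : |√(d : ℝ) - ((x : ℚ) / (y : ℚ) : ℚ)| < 1 / (2 * (((x : ℚ) / (y : ℚ)).den : ℝ) ^ 2) := by
    rw [hden']
    push_cast
    have h1 : √(d : ℝ) - (x : ℝ) / (y : ℝ) =
        (d * (y : ℝ) ^ 2 - (x : ℝ) ^ 2) / (y * (y * √(d : ℝ) + x)) := by
      have h2 : (y : ℝ) * √(d : ℝ) + x ≠ 0 := by positivity
      field_simp
      linear_combination (y : ℝ) ^ 2 * hs
    rw [h1, abs_div, abs_sub_comm, hm, abs_of_pos (by positivity), div_lt_div_iff₀ (by positivity)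
      (by positivity)]
    have h3 : 2 * m ≤ √(d : ℝ) := by linarith
    nlinarith [mul_le_mul_of_nonneg_left h3 hy'.le, mul_pos hy' hx', mul_pos hy' hy']
  obtain ⟨n, hn⟩ := Real.exists_rat_eq_convergent hlt
  refine ⟨n, ?_⟩
  rw [← hn, hnum, hden]
  exact h

/-- An elementary condition which says that the prime `q` is not inert in `ℚ(√d)`. -/
def NotInert (d q : ℕ) : Prop :=
  (q = 2 ∧ d % 8 ≠ 5) ∨ (q ≠ 2 ∧ ∃ z : ℤ, (q : ℤ) ∣ z ^ 2 - d)

end Pool.Agent.Q118.UF
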