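import Pool.Agent.H38R2.CG.FIN
import Pool.Agent.Q118.UF.Elem

/-!
# Unique factorisation in real quadratic fields and small values of `x² - d y²`
-/

set_option autoImplicit false

namespace Pool.Agent.Q118.UF

open NumberField Pool.Agent.H38R2.CG Pool.Agent.H38R2.CG.FINh

variable {K : Type} [Field K] [NumberField K]

theorem norm_eq {D : ℕ} (emb : Emb K D) (x : 𝓞 K) :
    ∃ u v : ℤ, (2 : ℤ) ∣ u - D * v ∧ 4 * Algebra.norm ℤ x = u ^ 2 - D * v ^ 2 := by
  obtain ⟨u, v, h2, hσ, hτ⟩ := emb.int1 x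
  refine ⟨u, v, h2, ?_⟩
  have hnrm := emb.nrm (x : K)
  have hcoe : ((Algebra.norm ℤ x : ℤ) : ℚ) = Algebra.norm ℚ (x : K) := Algebra.coe_norm_int x
  rw [← hcoe, hσ, hτ] at hnrm
  have hD0 : (0 : ℝ) ≤ (D : ℝ) := Nat.cast_nonneg _
  have h2' := Real.mul_self_sqrt hD0
  have h1 : (4 : ℝ) * ((Algebra.norm ℤ x : ℤ) : ℝ) = (u : ℝ) ^ 2 - (D : ℝ) * (v : ℝ) ^ 2 := by
    push_cast at hnrm
    rw [hnrm]
    linear_combination (-(v : ℝ) ^ 2) * h2'
  exact_mod_cast h1

theorem exists_of_eq {D : ℕ} (emb : Emb K D) (u v N : ℤ) (h2 : (2 : ℤ) ∣ u - D * v)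
    (h : 4 * N = u ^ 2 - D * v ^ 2) : ∃ x : 𝓞 K, Algebra.norm ℤ x = N := by
  obtain ⟨x, hσ, hτ⟩ := emb.int2 u v h2
  refine ⟨x, ?_⟩
  have hnrm := emb.nrm (x : K)
  have hcoe : ((Algebra.norm ℤ x : ℤ) : ℚ) = Algebra.norm ℚ (x : K) := Algebra.coe_norm_int x
  rw [← hcoe, hσ, hτ] at hnrm
  have hD0 : (0 : ℝ) ≤ (D : ℝ) := Nat.cast_nonneg _
  have h2' := Real.mul_self_sqrt hD0
  have h1 : (4 : ℝ) * ((Algebra.norm ℤ x : ℤ) : ℝ) = (u : ℝ) ^ 2 - (D : ℝ) * (v : ℝ) ^ 2 := by
    push_cast at hnrm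
    rw [hnrm]
    linear_combination (-(v : ℝ) ^ 2) * h2'
  have h3 : 4 * Algebra.norm ℤ x = u ^ 2 - D * v ^ 2 := by exact_mod_cast h1
  linarith

/-- The norm of an integer of norm `± q` gives a value of `x² - d y²`. -/
theorem rep_of_norm {d q : ℕ} (emb : Emb K (Dof d)) (x : 𝓞 K)
    (hx : (Algebra.norm ℤ x).natAbs = q) : Rep d q := by
  obtain ⟨u, v, h2, h4⟩ := norm_eq emb x
  have habs : |Algebra.norm ℤ x| = (q : ℤ) := by rw [Int.abs_eq_natAbs, hx]
  by_cases h1 : d % 4 = 1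
  · have hD : Dof d = d := if_pos h1
    rw [hD] at h4
    refine ⟨u, v, Or.inr ?_⟩
    rw [← h4, abs_mul, habs]
    rfl
  · have hD : Dof d = 4 * d := if_neg h1
    rw [hD] at h4 h2
    have hu : (2 : ℤ) ∣ u := by
      obtain ⟨k, hk⟩ := h2
      refine ⟨k + 2 * d * v, ?_⟩
      push_cast at hk
      linarith
    obtain ⟨w, rfl⟩ := hu
    refine ⟨w, v, Or.inl ?_⟩
    have h5 : Algebra.norm ℤ x = w ^ 2 - d * v ^ 2 := by
      push_cast at h4
      linarith
    rw [← h5, habs]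

/-- A value of `x² - d y²` gives an integer of norm `± q`. -/
theorem norm_of_rep {d q : ℕ} (hds : Squarefree d) (emb : Emb K (Dof d)) (h : Rep d q) :
    ∃ x : 𝓞 K, (Algebra.norm ℤ x).natAbs = q := by
  obtain ⟨x, y, h⟩ := h
  -- the values `± q`
  have main : ∀ x y : ℤ, |x ^ 2 - d * y ^ 2| = (q : ℤ) →
      ∃ z : 𝓞 K, (Algebra.norm ℤ z).natAbs = q := by
    intro x y h
    by_cases h1 : d % 4 = 1
    · have hD : Dof d = d := if_pos h1
      obtain ⟨z, hz⟩ := exists_of_eq emb (2 * x) (2 * y) (x ^ 2 - d * y ^ 2)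
        ⟨x - Dof d * y, by ring⟩ (by rw [hD]; ring)
      refine ⟨z, ?_⟩
      rw [hz]
      have := h
      rw [Int.abs_eq_natAbs] at this
      exact_mod_cast this
    · have hD : Dof d = 4 * d := if_neg h1
      obtain ⟨z, hz⟩ := exists_of_eq emb (2 * x) y (x ^ 2 - d * y ^ 2)
        ⟨x - 2 * d * y, by rw [hD]; push_cast; ring⟩ (by rw [hD]; push_cast; ring)
      refine ⟨z, ?_⟩
      rw [hz]
      have := h
      rw [Int.abs_eq_natAbs] at this
      exact_mod_cast this
  rcases h with h | h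
  · exact main x y h
  · have h4 : (4 : ℤ) ∣ x ^ 2 - d * y ^ 2 := by
      rw [← dvd_abs, h]
      exact dvd_mul_right _ _
    by_cases h1 : d % 4 = 1
    · have hD : Dof d = d := if_pos h1
      obtain ⟨N, hN⟩ := h4
      have hpar : (2 : ℤ) ∣ x - d * y := by
        obtain ⟨c, hc⟩ : ∃ c : ℕ, d = 4 * c + 1 := ⟨d / 4, by omega⟩
        have hx := Int.emod_two_eq_zero_or_one x
        have hy := Int.emod_two_eq_zero_or_one y
        have h5 : (x ^ 2 - d * y ^ 2) % 2 = 0 := by omega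
        have h6 : (x ^ 2 - d * y ^ 2) % 2 = (x - y) % 2 := by
          rw [hc]
          push_cast
          have hxx : x ^ 2 % 2 = x % 2 := by
            rcases hx with h | h <;> rw [pow_two, Int.mul_emod, h] <;> rfl
          have hyy : y ^ 2 % 2 = y % 2 := by
            rcases hy with h | h <;> rw [pow_two, Int.mul_emod, h] <;> rfl
          have : x ^ 2 - (4 * (c : ℤ) + 1) * y ^ 2 = x ^ 2 - y ^ 2 - 2 * (2 * c * y ^ 2) := by ring
          rw [this]
          omega
        have h7 : x - d * y = (x - y) - 2 * (2 * (c : ℤ) * y) := by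
          rw [hc]; push_cast; ring
        rw [h7]
        omega
      obtain ⟨z, hz⟩ := exists_of_eq emb x y N (by rw [hD]; exact hpar) (by rw [hD, hN])
      refine ⟨z, ?_⟩
      rw [hz]
      rw [hN, abs_mul] at h
      have h5 : |N| = (q : ℤ) := by
        have : |(4 : ℤ)| = 4 := rfl
        rw [this] at h
        linarith
      rw [Int.abs_eq_natAbs] at h5
      exact_mod_cast h5
    · -- both even
      have hd4 : d % 4 ≠ 0 := by
        intro h0
        have : 2 * 2 ∣ d := Nat.dvd_of_mod_eq_zero h0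
        have := hds 2 this
        simp at this
      have hcase : d % 4 = 2 ∨ d % 4 = 3 := by omega
      have hev : (2 : ℤ) ∣ x ∧ (2 : ℤ) ∣ y := by
        obtain ⟨c, r, hc, hr⟩ : ∃ c r : ℕ, d = 4 * c + r ∧ (r = 2 ∨ r = 3) :=
          ⟨d / 4, d % 4, by omega, hcase⟩
        obtain ⟨a, ha⟩ : ∃ a, x = 2 * a + x % 2 := ⟨x / 2, by omega⟩
        obtain ⟨b, hb⟩ : ∃ b, y = 2 * b + y % 2 := ⟨y / 2, by omega⟩
        have hx := Int.emod_two_eq_zero_or_one x
        have hy := Int.emod_two_eq_zero_or_one y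
        obtain ⟨N, hN⟩ := h4
        rw [hc] at hN
        push_cast at hN
        rcases hx with hx | hx <;> rcases hy with hy | hy <;> rcases hr with rfl | rfl <;>
          rw [hx] at ha <;> rw [hy] at hb <;> subst ha <;> subst hb <;> push_cast at hN <;>
          ring_nf at hN <;> constructor <;> omega
      obtain ⟨⟨a, rfl⟩, b, rfl⟩ := hev
      refine main a b ?_
      have : (2 * a) ^ 2 - d * (2 * b) ^ 2 = 4 * (a ^ 2 - d * b ^ 2) := by ring
      rw [this, abs_mul] at h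
      have h4' : |(4 : ℤ)| = 4 := rfl
      rw [h4'] at h
      linarith

theorem eq_of_le_of_absNorm {I P : Ideal (𝓞 K)} (h : I ≤ P) (h0 : Ideal.absNorm P ≠ 0)
    (hn : Ideal.absNorm I = Ideal.absNorm P) : I = P := by
  obtain ⟨M, hM⟩ := Ideal.dvd_iff_le.2 h
  have h1 : Ideal.absNorm P * Ideal.absNorm M = Ideal.absNorm P := by
    rw [← map_mul, ← hM, hn]
  have h2 : Ideal.absNorm M = 1 := by
    have : Ideal.absNorm P * Ideal.absNorm M = Ideal.absNorm P * 1 := by rw [h1, mul_one]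
    exact Nat.eq_of_mul_eq_mul_left (Nat.pos_of_ne_zero h0) this
  rw [Ideal.absNorm_eq_one_iff] at h2
  rw [hM, h2, Ideal.mul_top]

/-- If some integer has norm `± q` then all prime ideals of norm `q` are principal. -/
theorem principal_of_norm {q : ℕ} (hq : q.Prime) (h2 : Module.finrank ℚ K = 2) (α : 𝓞 K)
    (hα : (Algebra.norm ℤ α).natAbs = q) (P : Ideal (𝓞 K)) (hP : P.IsPrime)
    (hPn : Ideal.absNorm P = q) : P.IsPrincipal := by
  have hα' : Ideal.absNorm (Ideal.span {α}) = q := by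
    rw [Ideal.absNorm_span_singleton]; exact hα
  have hmem : ((q : ℕ) : 𝓞 K) ∈ Ideal.span {α} := by
    have := Ideal.absNorm_mem (Ideal.span {α})
    rwa [hα'] at this
  obtain ⟨β, hβ⟩ := Ideal.mem_span_singleton.1 hmem
  have hmemP : ((q : ℕ) : 𝓞 K) ∈ P := by
    have := Ideal.absNorm_mem P
    rwa [hPn] at this
  have hq0 : Ideal.absNorm P ≠ 0 := by rw [hPn]; exact hq.pos.ne'
  rw [hβ] at hmemP
  rcases hP.mem_or_mem hmemP with h | h
  · have : Ideal.span {α} = P :=
      eq_of_le_of_absNorm ((Ideal.span_singleton_le_iff_mem P).2 h) hq0 (by rw [hα', hPn])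
    rw [← this]
    exact ⟨⟨α, rfl⟩⟩
  · have hnq : Algebra.norm ℤ ((q : ℕ) : 𝓞 K) = (q : ℤ) ^ 2 := by
      have h3 : ((q : ℕ) : 𝓞 K) = algebraMap ℤ (𝓞 K) (q : ℤ) := by simp
      rw [h3, Algebra.norm_algebraMap, NumberField.RingOfIntegers.rank, h2]
    have hβn : (Algebra.norm ℤ β).natAbs = q := by
      have h3 := congrArg (fun z => (Algebra.norm ℤ z).natAbs) hβ
      simp only [map_mul, Int.natAbs_mul, hα, hnq, Int.natAbs_pow, Int.natAbs_natCast] at h3
      rw [pow_two] at h3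
      exact (Nat.eq_of_mul_eq_mul_left hq.pos h3).symm
    have hβ' : Ideal.absNorm (Ideal.span {β}) = q := by
      rw [Ideal.absNorm_span_singleton]; exact hβn
    have : Ideal.span {β} = P :=
      eq_of_le_of_absNorm ((Ideal.span_singleton_le_iff_mem P).2 h) hq0 (by rw [hβ', hPn])
    rw [← this]
    exact ⟨⟨β, rfl⟩⟩

theorem exists_prime_mem {R : Type*} [CommRing R] (P : Ideal R) (hP : P.IsPrime) (n : ℕ)
    (hn : n ≠ 0) (h : ((n : ℕ) : R) ∈ P) : ∃ q : ℕ, q.Prime ∧ ((q : ℕ) : R) ∈ P := by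
  induction n using Nat.strong_induction_on with
  | _ n ih =>
    by_cases h1 : n = 1
    · subst h1
      exfalso
      exact hP.ne_top ((Ideal.eq_top_iff_one P).2 (by simpa using h))
    · obtain ⟨p, hp, m, rfl⟩ := Nat.exists_prime_and_dvd h1
      rw [Nat.cast_mul] at h
      rcases hP.mem_or_mem h with h2 | h2
      · exact ⟨p, hp, h2⟩
      · have hm : m ≠ 0 := by
          rintro rfl
          simp at hn
        refine ih m ?_ hm h2
        have := hp.two_le
        have : 0 < m := Nat.pos_of_ne_zero hm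
        nlinarith

theorem chi_tri (D q : ℕ) (hq : q.Prime) : chi D q = 1 ∨ chi D q = 0 ∨ chi D q = -1 := by
  unfold chi
  by_cases h2 : q = 2
  · subst h2
    have h : padicValNat 2 2 = 1 := by simp
    rw [h]
    simp only [pow_one, Nat.div_self (by norm_num : 0 < 2), jacobiSym.one_right, mul_one]
    unfold chi2
    split_ifs <;> simp
  · have h : padicValNat 2 q = 0 := by
      refine padicValNat.eq_zero_of_not_dvd fun hd => h2 ?_
      exact ((Nat.prime_dvd_prime_iff_eq Nat.prime_two hq).1 hd).symm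
    rw [h]
    simp only [pow_zero, one_mul, Nat.div_one]
    rcases jacobiSym.trichotomy (D : ℤ) q with h | h | h
    · exact Or.inr (Or.inl h)
    · exact Or.inl h
    · exact Or.inr (Or.inr h)

theorem notInert_iff (d q : ℕ) (hq : q.Prime) : NotInert d q ↔ chi (Dof d) q ≠ -1 := by
  unfold NotInert
  by_cases h2 : q = 2
  · subst h2
    have h : padicValNat 2 2 = 1 := by simp
    have hc : chi (Dof d) 2 = chi2 (Dof d : ℕ) := by
      unfold chi
      rw [h]
      simp
    rw [hc]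
    unfold chi2 Dof
    split_ifs <;> simp <;> omega
  · have : Fact q.Prime := ⟨hq⟩
    have h : padicValNat 2 q = 0 := by
      refine padicValNat.eq_zero_of_not_dvd fun hd => h2 ?_
      exact ((Nat.prime_dvd_prime_iff_eq Nat.prime_two hq).1 hd).symm
    have hc : chi (Dof d) q = legendreSym q ((Dof d : ℕ) : ℤ) := by
      unfold chi
      rw [h]
      simp only [pow_zero, one_mul, Nat.div_one]
      exact (jacobiSym.legendreSym.to_jacobiSym q _).symm
    have hne : legendreSym q ((Dof d : ℕ) : ℤ) ≠ -1 ↔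
        IsSquare ((((Dof d : ℕ) : ℤ)) : ZMod q) := by
      rw [ne_eq, legendreSym.eq_neg_one_iff, not_not]
    rw [hc, hne]
    have hsq : IsSquare ((((Dof d : ℕ) : ℤ)) : ZMod q) ↔ IsSquare ((d : ℤ) : ZMod q) := by
      unfold Dof
      split_ifs
      · rfl
      · have h20 : (2 : ZMod q) ≠ 0 := by
          intro h0
          have : ((2 : ℕ) : ZMod q) = 0 := by exact_mod_cast h0
          rw [ZMod.natCast_eq_zero_iff] at this
          exact h2 ((Nat.prime_dvd_prime_iff_eq hq Nat.prime_two).1 this)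
        constructor
        · rintro ⟨r, hr⟩
          refine ⟨r / 2, ?_⟩
          push_cast at hr ⊢
          field_simp
          linear_combination hr
        · rintro ⟨r, hr⟩
          refine ⟨2 * r, ?_⟩
          push_cast at hr ⊢
          linear_combination 4 * hr
    rw [hsq]
    constructor
    · rintro (h | ⟨-, z, hz⟩)
      · exact absurd h.1 h2
      · refine ⟨(z : ZMod q), ?_⟩
        have h1 : ((z ^ 2 - d : ℤ) : ZMod q) = 0 := (ZMod.intCast_zmod_eq_zero_iff_dvd _ _).2 hz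
        push_cast at h1 ⊢
        linear_combination -h1
    · rintro ⟨r, hr⟩
      refine Or.inr ⟨h2, ?_⟩
      obtain ⟨z, hz⟩ := ZMod.intCast_surjective r
      refine ⟨z, ?_⟩
      rw [← ZMod.intCast_zmod_eq_zero_iff_dvd]
      push_cast at hr ⊢
      rw [hz]
      linear_combination -hr

/-- A nonzero prime ideal is principal or has prime norm `q` with `q` not inert. -/
theorem prime_cases (hSPL : P_SPL) {D : ℕ} (hD : IsFund D) (h2 : Module.finrank ℚ K = 2)
    (hdisc : NumberField.discr K = (D : ℤ)) (P : Ideal (𝓞 K)) (hP : P.IsPrime) :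
    P.IsPrincipal ∨ ∃ q : ℕ, q.Prime ∧ Ideal.absNorm P = q ∧ chi D q ≠ -1 := by
  by_cases hP0 : P = ⊥
  · left
    rw [hP0]
    exact bot_isPrincipal
  have hn0 : Ideal.absNorm P ≠ 0 := by
    rw [Ne, Ideal.absNorm_eq_zero_iff]
    exact hP0
  obtain ⟨q, hq, hqP⟩ := exists_prime_mem P hP _ hn0 (Ideal.absNorm_mem P)
  obtain ⟨s1, s0, sm⟩ := hSPL K D hD h2 hdisc q hq
  have hq0 : Ideal.span {((q : ℕ) : 𝓞 K)} ≠ ⊥ := by
    rw [Ne, Ideal.span_singleton_eq_bot]
    exact_mod_cast hq.pos.ne'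
  have hqle : Ideal.span {((q : ℕ) : 𝓞 K)} ≤ P := (Ideal.span_singleton_le_iff_mem P).2 hqP
  have heq : ∀ Q : Ideal (𝓞 K), Q.IsPrime → Q ≠ ⊥ → Q ≤ P → Q = P := fun Q hQ hQ0 hle =>
    (hQ.isMaximal hQ0).eq_of_le hP.ne_top hle
  rcases chi_tri D q hq with h | h | h
  · obtain ⟨P1, P2, -, hP1, hP2, hn1, hn2, hprod⟩ := s1 h
    rw [← hprod] at hqle
    right
    refine ⟨q, hq, ?_, by rw [h]; norm_num⟩
    rcases (Ideal.IsPrime.mul_le hP).1 hqle with h3 | h3
    · rw [← heq P1 hP1 (fun h0 => ?_) h3, hn1]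
      rw [h0, Ideal.absNorm_bot] at hn1
      exact hq.pos.ne hn1
    · rw [← heq P2 hP2 (fun h0 => ?_) h3, hn2]
      rw [h0, Ideal.absNorm_bot] at hn2
      exact hq.pos.ne hn2
  · obtain ⟨P1, hP1, hn1, hprod⟩ := s0 h
    rw [← hprod, pow_two] at hqle
    right
    refine ⟨q, hq, ?_, by rw [h]; norm_num⟩
    rcases (Ideal.IsPrime.mul_le hP).1 hqle with h3 | h3 <;>
    · rw [← heq P1 hP1 (fun h0 => ?_) h3, hn1]
      rw [h0, Ideal.absNorm_bot] at hn1
      exact hq.pos.ne hn1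
  · left
    rw [← heq _ (sm h) hq0 hqle]
    exact ⟨⟨_, rfl⟩⟩

/-- For a prime which is not inert there is a prime ideal of norm `q`. -/
theorem exists_prime_norm (hSPL : P_SPL) {D : ℕ} (hD : IsFund D) (h2 : Module.finrank ℚ K = 2)
    (hdisc : NumberField.discr K = (D : ℤ)) {q : ℕ} (hq : q.Prime) (hc : chi D q ≠ -1) :
    ∃ P : Ideal (𝓞 K), Ideal.absNorm P = q := by
  obtain ⟨s1, s0, -⟩ := hSPL K D hD h2 hdisc q hq
  rcases chi_tri D q hq with h | h | h
  · obtain ⟨P1, P2, -, hP1, hP2, hn1, hn2, hprod⟩ := s1 h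
    exact ⟨P1, hn1⟩
  · obtain ⟨P1, hP1, hn1, hprod⟩ := s0 h
    exact ⟨P1, hn1⟩
  · exact absurd h hc

/-- In a field with unique factorisation all primes which are not inert are represented. -/
theorem rep_of_ufd (hSPL : P_SPL) (hN0 : P_N0) {d : ℕ} (hd1 : 1 < d) (hds : Squarefree d)
    (h2 : Module.finrank ℚ K = 2) (hdisc : NumberField.discr K = ((Dof d : ℕ) : ℤ))
    (hU : UniqueFactorizationMonoid (𝓞 K)) {q : ℕ} (hq : q.Prime) (hc : NotInert d q) :
    Rep d q := by
  have hD := isFund_Dof hd1 hds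
  obtain ⟨P, hP⟩ := exists_prime_norm hSPL hD h2 hdisc hq ((notInert_iff d q hq).1 hc)
  obtain ⟨emb⟩ := hN0 K (Dof d) hD h2 hdisc
  have := hU
  have : IsPrincipalIdealRing (𝓞 K) :=
    IsPrincipalIdealRing.of_isDedekindDomain_of_uniqueFactorizationMonoid (𝓞 K)
  obtain ⟨x, hx⟩ := (IsPrincipalIdealRing.principal P).principal
  refine rep_of_norm emb x ?_
  rw [← hP, hx]
  exact (Ideal.absNorm_span_singleton x).symm

/-- If the small primes which are not inert are represented then the small prime ideals are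
principal. -/
theorem principal_of_rep (hSPL : P_SPL) (hN0 : P_N0) {d : ℕ} (hd1 : 1 < d) (hds : Squarefree d)
    (h2 : Module.finrank ℚ K = 2) (hdisc : NumberField.discr K = ((Dof d : ℕ) : ℤ)) {B : ℝ}
    (h : ∀ q : ℕ, q.Prime → (q : ℝ) ≤ B → NotInert d q → Rep d q) (P : Ideal (𝓞 K))
    (hP : P.IsPrime) (hPB : (Ideal.absNorm P : ℝ) ≤ B) : P.IsPrincipal := by
  have hD := isFund_Dof hd1 hds
  rcases prime_cases hSPL hD h2 hdisc P hP with h1 | ⟨q, hq, hPq, hc⟩
  · exact h1
  · obtain ⟨emb⟩ := hN0 K (Dof d) hD h2 hdisc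
    rw [hPq] at hPB
    obtain ⟨x, hx⟩ := norm_of_rep hds emb (h q hq hPB ((notInert_iff d q hq).2 hc))
    exact principal_of_norm hq h2 x hx P hP hPq

end Pool.Agent.Q118.UF
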